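import Mathlib

/-!
# The characteristic polynomial of a function with one cycle
-/

open Finset Polynomial

namespace OneCl

variable {α : Type*} [Fintype α] [DecidableEq α]

/-- the matrix of a function -/
def Bm (b : α → α) : Matrix α α ℚ := Matrix.of fun x y => if b x = y then 1 else 0

theorem Bm_pow (b : α → α) (i : ℕ) (x y : α) :
    (Bm b ^ i) x y = if b^[i] x = y then 1 else 0 := by
  induction i generalizing x with
  | zero =>
    rw [pow_zero, Matrix.one_apply]
    rfl
  | succ i ih =>
    rw [pow_succ', Matrix.mul_apply]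
    have h : ∀ z : α, Bm b x z * (Bm b ^ i) z y =
        if b x = z then (if b^[i] z = y then (1 : ℚ) else 0) else 0 := by
      intro z
      rw [ih z]
      simp only [Bm, Matrix.of_apply, ite_mul, one_mul, zero_mul]
    rw [sum_congr rfl fun z _ => h z, sum_ite_eq, if_pos (mem_univ _), Function.iterate_succ_apply]

section cyc
variable {b : α → α} (hcyc : ∀ x y : α, ∃ i : ℕ, b^[i] x = y)
include hcyc

theorem minPeriod (x : α) : Function.minimalPeriod b x = Fintype.card α := by
  have hper : x ∈ Function.periodicPts b := by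
    obtain ⟨i, hi⟩ := hcyc (b x) x
    exact ⟨i + 1, by omega, by
      show b^[i + 1] x = x
      rw [Function.iterate_succ_apply]; exact hi⟩
  have hpos : 0 < Function.minimalPeriod b x := Function.minimalPeriod_pos_of_mem_periodicPts hper
  have hinj : Set.InjOn (fun i => b^[i] x) (Set.Iio (Function.minimalPeriod b x)) :=
    Function.iterate_injOn_Iio_minimalPeriod
  have h1 : ((range (Function.minimalPeriod b x)).image fun i => b^[i] x).card =
      Function.minimalPeriod b x := by
    rw [card_image_of_injOn, card_range]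
    intro i hi j hj h
    exact hinj (by simpa using hi) (by simpa using hj) h
  have h2 : ((range (Function.minimalPeriod b x)).image fun i => b^[i] x) = univ := by
    rw [eq_univ_iff_forall]
    intro y
    obtain ⟨i, hi⟩ := hcyc x y
    rw [mem_image]
    refine ⟨i % Function.minimalPeriod b x, mem_range.2 (Nat.mod_lt _ hpos), ?_⟩
    rw [Function.iterate_mod_minimalPeriod_eq]
    exact hi
  rw [h2, card_univ] at h1
  exact h1.symm

theorem iter_card (x : α) : b^[Fintype.card α] x = x := by
  have h := Function.iterate_minimalPeriod (f := b) (x := x)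
  rwa [minPeriod hcyc x] at h

theorem iter_inj (x : α) {i j : ℕ} (hi : i < Fintype.card α) (hj : j < Fintype.card α)
    (h : b^[i] x = b^[j] x) : i = j := by
  have hinj : Set.InjOn (fun i => b^[i] x) (Set.Iio (Function.minimalPeriod b x)) :=
    Function.iterate_injOn_Iio_minimalPeriod
  rw [minPeriod hcyc x] at hinj
  exact hinj hi hj h

theorem charpoly_cyc [Nonempty α] : (Bm b).charpoly = X ^ Fintype.card α - 1 := by
  obtain ⟨x0⟩ := ‹Nonempty α›
  have hn : 0 < Fintype.card α := Fintype.card_pos_iff.2 ⟨x0⟩
  have hB : Bm b ^ Fintype.card α = 1 := by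
    ext x y
    rw [Bm_pow, iter_card hcyc, Matrix.one_apply]
  have hmonic : (X ^ Fintype.card α - 1 : ℚ[X]).Monic := by
    have := monic_X_pow_sub_C (1 : ℚ) hn.ne'
    simpa using this
  have hdeg : (X ^ Fintype.card α - 1 : ℚ[X]).degree = Fintype.card α := by
    have := degree_X_pow_sub_C hn (1 : ℚ)
    simpa using this
  have hdeg2 : (Bm b).charpoly.degree = Fintype.card α := by
    rw [degree_eq_natDegree (Matrix.charpoly_monic _).ne_zero, Matrix.charpoly_natDegree_eq_dim]
  set q := (Bm b).charpoly - (X ^ Fintype.card α - 1) with hq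
  have hqdeg : q.degree < Fintype.card α := by
    rw [← hdeg2]
    refine degree_sub_lt_left (by rw [hdeg, hdeg2]) (Matrix.charpoly_monic _).ne_zero ?_
    rw [(Matrix.charpoly_monic _).leadingCoeff, hmonic.leadingCoeff]
  have hq0 : aeval (Bm b) q = 0 := by
    rw [hq, map_sub, Matrix.aeval_self_charpoly, map_sub, map_pow, aeval_X, map_one, hB, sub_self,
      sub_self]
  have hcoef : ∀ j < Fintype.card α, q.coeff j = 0 := by
    intro j hj
    have h1 : aeval (Bm b) q = ∑ i ∈ range (Fintype.card α), q.coeff i • Bm b ^ i := by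
      by_cases h0 : q = 0
      · rw [h0]; simp
      · refine aeval_eq_sum_range' ?_ _
        have := degree_eq_natDegree h0
        rw [this] at hqdeg
        exact_mod_cast hqdeg
    rw [hq0] at h1
    have h2 := congrFun (congrFun h1 x0) (b^[j] x0)
    rw [Matrix.sum_apply] at h2
    simp only [Matrix.smul_apply, Bm_pow, smul_eq_mul, mul_ite, mul_one, mul_zero,
      Matrix.zero_apply] at h2
    rw [sum_eq_single j] at h2
    · rw [if_pos rfl] at h2
      exact h2.symm
    · intro i hi hij
      rw [if_neg]
      intro h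
      exact hij (iter_inj hcyc x0 (mem_range.1 hi) hj h)
    · intro h
      exact absurd (mem_range.2 hj) h
  have hzero : q = 0 := by
    ext j
    rw [coeff_zero]
    rcases lt_or_ge j (Fintype.card α) with h | h
    · exact hcoef j h
    · exact coeff_eq_zero_of_degree_lt (hqdeg.trans_le (by exact_mod_cast h))
  rw [hq, sub_eq_zero] at hzero
  exact hzero

end cyc

section one
variable {b : α → α} {p : α → Prop} [DecidablePred p] (h1 : ∀ x, p x → p (b x))
  (h2 : ∀ x, p x → ∀ y, p y → ∃ i : ℕ, b^[i] x = y)

omit [Fintype α] [DecidableEq α] [DecidablePred p] in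
include h1 in
theorem stay (x : α) (hx : p x) (i : ℕ) : p (b^[i] x) := by
  induction i with
  | zero => exact hx
  | succ i ih => rw [Function.iterate_succ_apply']; exact h1 _ ih

/-- the restriction of `b` to the closed part -/
def res (h1 : ∀ x, p x → p (b x)) (x : {x // p x}) : {x // p x} := ⟨b x.1, h1 x.1 x.2⟩

omit [Fintype α] [DecidableEq α] [DecidablePred p] in
theorem res_iter (x : {x // p x}) (i : ℕ) : ((res h1)^[i] x).1 = b^[i] x.1 := by
  induction i generalizing x with
  | zero => rfl
  | succ i ih => rw [Function.iterate_succ_apply, ih, Function.iterate_succ_apply]; rfl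

omit [Fintype α] [DecidableEq α] [DecidablePred p] in
include h2 in
theorem res_cyc : ∀ x y : {x // p x}, ∃ i : ℕ, (res h1)^[i] x = y := by
  intro x y
  obtain ⟨i, hi⟩ := h2 x.1 x.2 y.1 y.2
  exact ⟨i, Subtype.ext (by rw [res_iter, hi])⟩

/-- the part outside -/
def Nm (b : α → α) (p : α → Prop) : Matrix {x // ¬ p x} {x // ¬ p x} ℚ :=
  Matrix.of fun x y => if b x.1 = y.1 then 1 else 0

include h1 in
theorem Nm_pow (i : ℕ) (x y : {x // ¬ p x}) :
    (Nm b p ^ i) x y = if b^[i] x.1 = y.1 then 1 else 0 := by
  induction i generalizing x with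
  | zero =>
    rw [pow_zero, Matrix.one_apply]
    show _ = if x.1 = y.1 then (1 : ℚ) else 0
    by_cases hxy : x = y
    · rw [if_pos hxy, if_pos (congrArg Subtype.val hxy)]
    · rw [if_neg hxy, if_neg]
      intro h
      exact hxy (Subtype.ext h)
  | succ i ih =>
    rw [pow_succ', Matrix.mul_apply]
    by_cases hx : p (b x.1)
    · rw [if_neg, sum_eq_zero]
      · intro z _
        have : Nm b p x z = 0 := by
          unfold Nm
          rw [Matrix.of_apply, if_neg]
          intro h
          exact z.2 (h ▸ hx)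
        rw [this, zero_mul]
      · rw [Function.iterate_succ_apply]
        intro h
        exact y.2 (h ▸ stay h1 _ hx i)
    · rw [sum_eq_single (⟨b x.1, hx⟩ : {x // ¬ p x})]
      · rw [ih, Function.iterate_succ_apply]
        unfold Nm
        rw [Matrix.of_apply, if_pos rfl, one_mul]
      · intro z _ hz
        have : Nm b p x z = 0 := by
          unfold Nm
          rw [Matrix.of_apply, if_neg]
          intro h
          exact hz (Subtype.ext h.symm)
        rw [this, zero_mul]
      · intro h
        exact absurd (mem_univ _) h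

include h1 in
theorem charpoly_Nm {h : ℕ} (hh : ∀ x, p (b^[h] x)) :
    (Nm b p).charpoly = X ^ Fintype.card {x // ¬ p x} := by
  have h0 : Nm b p ^ h = 0 := by
    ext x y
    rw [Nm_pow h1, Matrix.zero_apply, if_neg]
    intro h'
    exact y.2 (h' ▸ hh x.1)
  have h3 : IsNilpotent (Nm b p) := ⟨h, h0⟩
  have h4 := Matrix.isNilpotent_charpoly_sub_pow_of_isNilpotent h3
  have h5 := h4.eq_zero
  rw [sub_eq_zero] at h5
  exact h5

theorem blk1 : (Bm b).charmatrix.toSquareBlockProp p = (Bm (res h1)).charmatrix := by
  ext1 x y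
  rw [Matrix.toSquareBlockProp_def, Matrix.of_apply]
  by_cases hxy : x = y
  · subst hxy
    rw [Matrix.charmatrix_apply_eq, Matrix.charmatrix_apply_eq]
    congr 2
    unfold Bm res
    rw [Matrix.of_apply, Matrix.of_apply]
    by_cases h : b x.1 = x.1
    · rw [if_pos h, if_pos (Subtype.ext h)]
    · rw [if_neg h, if_neg]
      intro h'
      exact h (congrArg Subtype.val h')
  · have hxy' : x.1 ≠ y.1 := fun h => hxy (Subtype.ext h)
    rw [Matrix.charmatrix_apply_ne _ _ _ hxy, Matrix.charmatrix_apply_ne _ _ _ hxy']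
    congr 2
    unfold Bm res
    rw [Matrix.of_apply, Matrix.of_apply]
    by_cases h : b x.1 = y.1
    · rw [if_pos h, if_pos (Subtype.ext h)]
    · rw [if_neg h, if_neg]
      intro h'
      exact h (congrArg Subtype.val h')

theorem blk2 : (Bm b).charmatrix.toSquareBlockProp (fun x => ¬ p x) = (Nm b p).charmatrix := by
  ext1 x y
  rw [Matrix.toSquareBlockProp_def, Matrix.of_apply]
  by_cases hxy : x = y
  · subst hxy
    rw [Matrix.charmatrix_apply_eq, Matrix.charmatrix_apply_eq]
    rfl
  · have hxy' : x.1 ≠ y.1 := fun h => hxy (Subtype.ext h)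
    rw [Matrix.charmatrix_apply_ne _ _ _ hxy, Matrix.charmatrix_apply_ne _ _ _ hxy']
    rfl

include h1 in
theorem charpoly_mul : (Bm b).charpoly = (Bm (res h1)).charpoly * (Nm b p).charpoly := by
  have h3 := Matrix.twoBlockTriangular_det' (Bm b).charmatrix p (by
    intro x hx y hy
    have hxy : x ≠ y := fun h => hy (h ▸ hx)
    rw [Matrix.charmatrix_apply_ne _ _ _ hxy]
    unfold Bm
    rw [Matrix.of_apply, if_neg, C_0, neg_zero]
    intro h
    exact hy (h ▸ h1 x hx))
  rw [blk1 h1, blk2] at h3
  exact h3

include h1 h2 in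
theorem charpoly_one (hne : ∃ x, p x) {h : ℕ} (hh : ∀ x, p (b^[h] x)) :
    (Bm b).charpoly = X ^ Fintype.card α - X ^ (Fintype.card α - Fintype.card {x // p x}) := by
  haveI : Nonempty {x // p x} := ⟨⟨hne.choose, hne.choose_spec⟩⟩
  have e3 : Fintype.card {x // ¬ p x} = Fintype.card α - Fintype.card {x // p x} :=
    Fintype.card_subtype_compl _
  have e4 : Fintype.card {x // p x} ≤ Fintype.card α := Fintype.card_subtype_le _
  rw [charpoly_mul h1, charpoly_cyc (res_cyc h1 h2), charpoly_Nm h1 hh]
  rw [e3, sub_mul, one_mul, ← pow_add, Nat.add_sub_cancel' e4]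

include h1 h2 in
theorem charpoly_one' (hne : ∃ x, p x) {h : ℕ} (hh : ∀ x, p (b^[h] x)) :
    (Bm b).charpoly = X ^ Fintype.card α - X ^ (Fintype.card α - (univ.filter p).card) := by
  rw [← Fintype.card_subtype]
  exact charpoly_one h1 h2 hne hh

end one

end OneCl
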