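import Pool.Agent.OneCl.Charpoly
import Pool.Agent.Helper41.Circ.Ext

/-!
# One-cluster automata: the extension lemma
-/

open Finset Polynomial

namespace OneCl

open Helper41.Circ (act act_nil act_cons act_append act_replicate pre mem_pre pre_append Over Sync
  words mem_words sum_words_succ nb nb_append nb_replicate wt Am)

variable {n : ℕ}

/-- the sum of the values of `g` on `C` after the word `w` -/
def sgg (C : Finset (Fin n)) (g : Fin n → ℚ) (w : List (Fin n → Fin n)) : ℚ := ∑ x ∈ C, g (act w x)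

/-- the sum over all words of length `k` with `M` letters different from `b` -/
def SS (Ω : Finset (Fin n → Fin n)) (b : Fin n → Fin n) (C : Finset (Fin n)) (g : Fin n → ℚ)
    (M k : ℕ) : ℚ := ∑ w ∈ (words Ω k).filter (fun w => nb b w = M), sgg C g w

section short
variable {Ω : Finset (Fin n → Fin n)} {b : Fin n → Fin n} {C : Finset (Fin n)} {g : Fin n → ℚ}

theorem short_word {M N : ℕ} (hM : ∀ w, Over Ω w → nb b w < M → sgg C g w = 0)
    (hN : ∀ w, Over Ω w → nb b w = M → w.length < N → sgg C g w = 0)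
    {w : List (Fin n → Fin n)} (hw : Over Ω w) (hwM : nb b w = M) (hwN : w.length = N)
    (hsg : sgg C g w ≠ 0) : N + 1 ≤ n := by
  classical
  let K : Matrix (Fin (N + 1)) (Fin n) ℚ := fun i y =>
    ((C.filter fun x => act (w.take i) x = y).card : ℚ)
  let V : Matrix (Fin n) (Fin (N + 1)) ℚ := fun y k => g (act (w.drop k) y)
  have hKV : ∀ i k : Fin (N + 1), (K * V) i k = sgg C g (w.take i ++ w.drop k) := by
    intro i k
    rw [Matrix.mul_apply]
    unfold sgg
    simp only [K, V, act_append]
    have h1 : ∀ y : Fin n, ((C.filter fun x => act (w.take i) x = y).card : ℚ) *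
        g (act (w.drop k) y) =
        ∑ x ∈ C, if act (w.take i) x = y then g (act (w.drop k) (act (w.take i) x)) else 0 := by
      intro y
      rw [← sum_filter, card_eq_sum_ones, Nat.cast_sum, sum_mul]
      refine sum_congr rfl fun x hx => ?_
      rw [(mem_filter.1 hx).2]
      simp
    rw [sum_congr rfl fun y _ => h1 y, sum_comm]
    refine sum_congr rfl fun x _ => ?_
    rw [sum_ite_eq]
    simp
  have hov : ∀ i k : ℕ, Over Ω (w.take i ++ w.drop k) := by
    intro i k f hf
    rcases List.mem_append.1 hf with h | h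
    · exact hw f (List.mem_of_mem_take h)
    · exact hw f (List.mem_of_mem_drop h)
  have htri : ∀ i k : Fin (N + 1), i < k → (K * V) i k = 0 := by
    intro i k hik
    have hik' : (i : ℕ) < k := hik
    have hk : (k : ℕ) ≤ N := by have := k.2; omega
    rw [hKV]
    have hlen : (w.take i ++ w.drop k).length < N := by
      rw [List.length_append, List.length_take, List.length_drop, hwN]
      omega
    have hnb : nb b (w.take i ++ w.drop k) ≤ M := by
      have h1 : w = w.take i ++ ((w.drop i).take (k - i) ++ w.drop k) := by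
        have h2 : w.drop k = (w.drop i).drop (k - i) := by
          rw [List.drop_drop]; congr 1; omega
        rw [h2, List.take_append_drop, List.take_append_drop]
      have h3 := congrArg (nb b) h1
      rw [nb_append, nb_append, hwM] at h3
      rw [nb_append]
      omega
    rcases Nat.lt_or_eq_of_le hnb with h | h
    · exact hM _ (hov _ _) h
    · exact hN _ (hov _ _) h hlen
  have hdiag : ∀ i : Fin (N + 1), (K * V) i i ≠ 0 := by
    intro i
    rw [hKV, List.take_append_drop]
    exact hsg
  have hdet : (K * V).det ≠ 0 := by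
    rw [Matrix.det_of_isLowerTriangular (K * V) (fun i j hij => htri i j hij)]
    exact prod_ne_zero_iff.2 fun i _ => hdiag i
  have hrank : (K * V).rank = N + 1 := by
    rw [Matrix.rank_of_isUnit _ ((Matrix.isUnit_iff_isUnit_det _).2 (isUnit_iff_ne_zero.2 hdet)),
      Fintype.card_fin]
  have h1 : (K * V).rank ≤ K.rank := Matrix.rank_mul_le_left K V
  have h2 : K.rank ≤ n := by
    have := Matrix.rank_le_width K
    simpa using this
  omega

end short

/-! ### the generating polynomials -/

/-- the vector of the generating polynomials of the words of length `i` -/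
noncomputable def Pv (Ω : Finset (Fin n → Fin n)) (b : Fin n → Fin n) (g : Fin n → ℚ) (i : ℕ)
    (x : Fin n) : ℚ[X] := ∑ w ∈ words Ω i, Polynomial.C (g (act w x)) * X ^ (nb b w)

theorem Pv_succ (Ω : Finset (Fin n → Fin n)) (b : Fin n → Fin n) (g : Fin n → ℚ) (i : ℕ) :
    Pv Ω b g (i + 1) = (Am Ω b).mulVec (Pv Ω b g i) := by
  funext x
  unfold Pv
  rw [sum_words_succ]
  simp only [Matrix.mulVec, dotProduct, Am, Matrix.of_apply, sum_mul]
  conv_rhs => rw [sum_comm]
  refine sum_congr rfl fun a ha => ?_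
  simp only [ite_mul, zero_mul]
  rw [sum_ite_eq]
  simp only [mem_univ, if_true]
  rw [mul_sum]
  refine sum_congr rfl fun w hw => ?_
  simp only [act_cons, nb, wt]
  split_ifs with h
  · ring
  · ring

theorem Pv_eq (Ω : Finset (Fin n → Fin n)) (b : Fin n → Fin n) (g : Fin n → ℚ) (i : ℕ) :
    Pv Ω b g i = ((Am Ω b) ^ i).mulVec (Pv Ω b g 0) := by
  induction i with
  | zero => rw [pow_zero, Matrix.one_mulVec]
  | succ i ih => rw [Pv_succ, ih, pow_succ', Matrix.mulVec_mulVec]

/-- the sum of the entries over `C` -/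
theorem sum_Pv (Ω : Finset (Fin n → Fin n)) (b : Fin n → Fin n) (C : Finset (Fin n))
    (g : Fin n → ℚ) (i : ℕ) :
    ∑ x ∈ C, Pv Ω b g i x = ∑ w ∈ words Ω i, Polynomial.C (sgg C g w) * X ^ (nb b w) := by
  unfold Pv sgg
  rw [sum_comm]
  refine sum_congr rfl fun w _ => ?_
  rw [map_sum, sum_mul]

theorem coeff_sum_Pv (Ω : Finset (Fin n → Fin n)) (b : Fin n → Fin n) (C : Finset (Fin n))
    (g : Fin n → ℚ) (i k : ℕ) :
    (∑ x ∈ C, Pv Ω b g i x).coeff k = SS Ω b C g k i := by
  unfold SS
  rw [sum_Pv, finsetSum_coeff, sum_filter]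
  refine sum_congr rfl fun w _ => ?_
  rw [coeff_C_mul, coeff_X_pow]
  simp only [mul_ite, mul_one, mul_zero]
  by_cases h : nb b w = k
  · rw [if_pos h, if_pos h.symm]
  · rw [if_neg h, if_neg (Ne.symm h)]

theorem Am_zero {Ω : Finset (Fin n → Fin n)} {b : Fin n → Fin n} (hb : b ∈ Ω) :
    (Am Ω b).map (evalRingHom (0 : ℚ)) = Bm b := by
  ext x y
  rw [Matrix.map_apply]
  simp only [Am, Bm, Matrix.of_apply, map_sum]
  rw [sum_eq_single b]
  · split_ifs
    · simp [wt]
    · simp
  · intro a _ hab
    split_ifs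
    · simp [wt, hab]
    · simp
  · intro h
    exact absurd hb h

theorem charpoly_coeff_zero {Ω : Finset (Fin n → Fin n)} {b : Fin n → Fin n} (hb : b ∈ Ω) (k : ℕ) :
    ((Am Ω b).charpoly.coeff k).coeff 0 = (Bm b).charpoly.coeff k := by
  rw [← Am_zero hb, Matrix.charpoly_map, coeff_map, coe_evalRingHom, coeff_zero_eq_eval_zero]

/-- the key identity -/
theorem key {Ω : Finset (Fin n → Fin n)} {b : Fin n → Fin n} (hb : b ∈ Ω) (C : Finset (Fin n))
    (g : Fin n → ℚ) {M m : ℕ} (hm : m ≤ n) (hm0 : 0 < m)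
    (hchar : (Bm b).charpoly = X ^ n - X ^ (n - m))
    (hM : ∀ w, Over Ω w → nb b w < M → sgg C g w = 0) :
    SS Ω b C g M n = SS Ω b C g M (n - m) := by
  have h1 : ∑ k ∈ range (n + 1), (Am Ω b).charpoly.coeff k • (Am Ω b) ^ k = 0 := by
    have h2 := aeval_eq_sum_range (p := (Am Ω b).charpoly) (Am Ω b)
    rw [Matrix.aeval_self_charpoly, Matrix.charpoly_natDegree_eq_dim, Fintype.card_fin] at h2
    exact h2.symm
  have h3 : ∑ k ∈ range (n + 1), (Am Ω b).charpoly.coeff k * ∑ x ∈ C, Pv Ω b g k x = 0 := by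
    have h4 := congrArg (fun A => ∑ x ∈ C, (Matrix.mulVec A (Pv Ω b g 0)) x) h1
    simp only [Matrix.sum_mulVec, Matrix.smul_mulVec, Matrix.zero_mulVec, Pi.zero_apply,
      sum_const_zero] at h4
    rw [← h4]
    simp only [← Pv_eq]
    rw [sum_congr rfl fun x _ => Finset.sum_apply x _ _, sum_comm]
    refine sum_congr rfl fun k _ => ?_
    simp only [Pi.smul_apply, smul_eq_mul]
    rw [mul_sum]
  have hlow : ∀ i k, k < M → (∑ x ∈ C, Pv Ω b g i x).coeff k = 0 := by
    intro i k hk
    rw [coeff_sum_Pv]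
    unfold SS
    refine sum_eq_zero fun w hw => ?_
    obtain ⟨h5, h6⟩ := mem_filter.1 hw
    exact hM w (mem_words.1 h5).2 (by omega)
  have h7 := congrArg (fun p => p.coeff M) h3
  simp only [finsetSum_coeff, coeff_zero] at h7
  have h8 : ∀ k ∈ range (n + 1), ((Am Ω b).charpoly.coeff k * ∑ x ∈ C, Pv Ω b g k x).coeff M =
      (X ^ n - X ^ (n - m) : ℚ[X]).coeff k * (∑ x ∈ C, Pv Ω b g k x).coeff M := by
    intro k _
    rw [coeff_mul, sum_eq_single (0, M)]
    · rw [charpoly_coeff_zero hb, hchar]
    · intro p hp hne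
      have h9 := HasAntidiagonal.mem_antidiagonal.1 hp
      have h10 : p.2 < M := by
        rcases Nat.lt_or_eq_of_le (by omega : p.2 ≤ M) with h | h
        · exact h
        · exact absurd (Prod.ext (by simp; omega) h) hne
      rw [hlow k p.2 h10, mul_zero]
    · intro h
      exact absurd (HasAntidiagonal.mem_antidiagonal.2 (by simp)) h
  rw [sum_congr rfl h8] at h7
  have h11 : ∀ k, (X ^ n - X ^ (n - m) : ℚ[X]).coeff k =
      (if k = n then 1 else 0) - (if k = n - m then 1 else 0) := by
    intro k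
    rw [coeff_sub, coeff_X_pow, coeff_X_pow]
  simp only [h11, sub_mul, ite_mul, one_mul, zero_mul, sum_sub_distrib, sum_ite_eq', mem_range] at h7
  rw [if_pos (by omega), if_pos (by omega), coeff_sum_Pv, coeff_sum_Pv] at h7
  linarith

section ext
variable {Ω : Finset (Fin n → Fin n)} {b : Fin n → Fin n} {C : Finset (Fin n)} {g : Fin n → ℚ}
  (hb : b ∈ Ω) (hbC : ∀ x ∈ C, b x ∈ C) (hinj : ∀ x ∈ C, ∀ y ∈ C, b x = b y → x = y)

include hbC hinj in
/-- a first letter `b` does not matter -/
theorem sgg_cons (w : List (Fin n → Fin n)) : sgg C g (b :: w) = sgg C g w := by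
  classical
  unfold sgg
  have himg : C.image b = C := by
    refine eq_of_subset_of_card_le ?_ ?_
    · intro y hy
      obtain ⟨x, hx, rfl⟩ := mem_image.1 hy
      exact hbC x hx
    · rw [card_image_of_injOn (fun x hx y hy h => hinj x hx y hy h)]
  conv_rhs => rw [← himg]
  rw [sum_image (fun x hx y hy h => hinj x hx y hy h)]
  rfl

include hb hbC hinj in
/-- the sums grow by the words that begin with another letter -/
theorem SS_succ (M k : ℕ) : SS Ω b C g M (k + 1) = SS Ω b C g M k +
    ∑ w ∈ (words Ω (k + 1)).filter (fun w => nb b w = M ∧ w.head? ≠ some b), sgg C g w := by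
  classical
  have h1 : SS Ω b C g M (k + 1) =
      ∑ w ∈ (words Ω (k + 1)).filter (fun w => nb b w = M ∧ w.head? = some b), sgg C g w +
      ∑ w ∈ (words Ω (k + 1)).filter (fun w => nb b w = M ∧ w.head? ≠ some b), sgg C g w := by
    unfold SS
    rw [← sum_filter_add_sum_filter_not _ (fun w => w.head? = some b), filter_filter, filter_filter]
  rw [h1]
  congr 1
  unfold SS
  symm
  refine sum_bij' (fun w _ => b :: w) (fun w _ => w.tail) ?_ ?_ ?_ ?_ ?_
  · intro w hw
    obtain ⟨h2, h3⟩ := mem_filter.1 hw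
    obtain ⟨h4, h5⟩ := mem_words.1 h2
    rw [mem_filter, mem_words]
    refine ⟨⟨by rw [List.length_cons, h4], ?_⟩, ?_, by simp⟩
    · intro f hf
      rcases List.mem_cons.1 hf with h | h
      · rw [h]; exact hb
      · exact h5 f h
    · simp only [nb, if_true]
      omega
  · intro w hw
    obtain ⟨h2, h3, h4⟩ := mem_filter.1 hw
    obtain ⟨h5, h6⟩ := mem_words.1 h2
    cases w with
    | nil => simp at h5
    | cons a w =>
      simp only [List.head?_cons, Option.some.injEq] at h4
      simp only [List.tail_cons]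
      rw [mem_filter, mem_words]
      refine ⟨⟨by simpa using h5, fun f hf => h6 f (by simp [hf])⟩, ?_⟩
      rw [h4] at h3
      simp only [nb, if_true] at h3
      omega
  · intro w _
    rfl
  · intro w hw
    obtain ⟨h2, h3, h4⟩ := mem_filter.1 hw
    cases w with
    | nil => simp at h4
    | cons a w =>
      simp only [List.head?_cons, Option.some.injEq] at h4
      rw [h4]
      rfl
  · intro w _
    exact (sgg_cons hbC hinj w).symm

include hb hbC hinj in
/-- **Extension**, abstract form: `g` is invariant under `m` steps of `b` -/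
theorem exists_pos {m : ℕ} (hm : m ≤ n) (hm0 : 0 < m)
    (hchar : (Bm b).charpoly = X ^ n - X ^ (n - m)) (hper : ∀ x, g (b^[m] x) = g x)
    (hnil : sgg C g [] = 0) {r : List (Fin n → Fin n)} (hr : Over Ω r) (hrn : sgg C g r ≠ 0) :
    ∃ w, Over Ω w ∧ w.length ≤ n ∧ 0 < sgg C g w := by
  classical
  by_contra hcon
  push Not at hcon
  have hex : ∃ M, ∃ w, Over Ω w ∧ nb b w = M ∧ sgg C g w ≠ 0 := ⟨_, r, hr, rfl, hrn⟩
  obtain ⟨M, hMspec, hMmin⟩ : ∃ M, (∃ w, Over Ω w ∧ nb b w = M ∧ sgg C g w ≠ 0) ∧
      ∀ M' < M, ¬ ∃ w, Over Ω w ∧ nb b w = M' ∧ sgg C g w ≠ 0 :=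
    ⟨Nat.find hex, Nat.find_spec hex, fun M' h => Nat.find_min hex h⟩
  have hM : ∀ w, Over Ω w → nb b w < M → sgg C g w = 0 := by
    intro w hw hlt
    by_contra hne
    exact hMmin _ hlt ⟨w, hw, rfl, hne⟩
  have hexN : ∃ N, ∃ w, Over Ω w ∧ nb b w = M ∧ w.length = N ∧ sgg C g w ≠ 0 := by
    obtain ⟨w, h1, h2, h3⟩ := hMspec
    exact ⟨_, w, h1, h2, rfl, h3⟩
  obtain ⟨N, hNspec, hNmin⟩ : ∃ N, (∃ w, Over Ω w ∧ nb b w = M ∧ w.length = N ∧ sgg C g w ≠ 0) ∧
      ∀ N' < N, ¬ ∃ w, Over Ω w ∧ nb b w = M ∧ w.length = N' ∧ sgg C g w ≠ 0 :=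
    ⟨Nat.find hexN, Nat.find_spec hexN, fun M' h => Nat.find_min hexN h⟩
  have hN : ∀ w, Over Ω w → nb b w = M → w.length < N → sgg C g w = 0 := by
    intro w hw hwM hlt
    by_contra hne
    exact hNmin _ hlt ⟨w, hw, hwM, rfl, hne⟩
  obtain ⟨w, h1, h2, h3, h4⟩ := hNspec
  have h5 := short_word hM hN h1 h2 h3 h4
  -- the first letter is not `b`
  have h6 : w.head? ≠ some b := by
    intro h
    cases w with
    | nil => simp at h
    | cons a u =>
      simp only [List.head?_cons, Option.some.injEq] at h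
      subst h
      rw [sgg_cons hbC hinj] at h4
      refine h4 (hN u (fun f hf => h1 f (by simp [hf])) ?_ ?_)
      · simp only [nb, if_true] at h2
        omega
      · rw [List.length_cons] at h3
        omega
  have h6' : w ≠ [] := by
    intro h
    rw [h] at h4
    exact h4 hnil
  -- all terms vanish
  have key1 := key hb C g hm hm0 hchar hM
  have hmono : ∀ k, k < n → SS Ω b C g M (k + 1) ≤ SS Ω b C g M k := by
    intro k hk
    rw [SS_succ hb hbC hinj]
    have : ∑ w ∈ (words Ω (k + 1)).filter (fun w => nb b w = M ∧ w.head? ≠ some b), sgg C g w ≤ 0 := by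
      refine sum_nonpos fun w hw => ?_
      obtain ⟨h7, _⟩ := mem_filter.1 hw
      obtain ⟨h8, h9⟩ := mem_words.1 h7
      exact hcon w h9 (by omega)
    linarith
  have hmono2 : ∀ i k, k ≤ i → i ≤ n → SS Ω b C g M i ≤ SS Ω b C g M k := by
    intro i k hk
    induction i, hk using Nat.le_induction with
    | base => intro _; exact le_refl _
    | succ i hi ih =>
      intro h
      exact (hmono i (by omega)).trans (ih (by omega))
  have hzero : ∀ u, Over Ω u → nb b u = M → u.head? ≠ some b → n - m < u.length → u.length ≤ n →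
      sgg C g u = 0 := by
    intro u hu huM hu0 hl1 hl2
    obtain ⟨k, hk⟩ : ∃ k, u.length = k + 1 := ⟨u.length - 1, by omega⟩
    have e1 := hmono2 n (k + 1) (by omega) (le_refl _)
    have e2 := hmono2 k (n - m) (by omega) (by omega)
    have e3 := SS_succ hb hbC hinj (g := g) M k
    have e4 : ∑ w ∈ (words Ω (k + 1)).filter (fun w => nb b w = M ∧ w.head? ≠ some b),
        sgg C g w = 0 := by
      have e5 : ∑ w ∈ (words Ω (k + 1)).filter (fun w => nb b w = M ∧ w.head? ≠ some b),
          sgg C g w ≤ 0 := by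
        refine sum_nonpos fun w hw => ?_
        obtain ⟨h7, _⟩ := mem_filter.1 hw
        obtain ⟨h8, h9⟩ := mem_words.1 h7
        exact hcon w h9 (by omega)
      linarith
    have e6 : ∀ w ∈ (words Ω (k + 1)).filter (fun w => nb b w = M ∧ w.head? ≠ some b),
        sgg C g w ≤ 0 := by
      intro w hw
      obtain ⟨h7, _⟩ := mem_filter.1 hw
      obtain ⟨h8, h9⟩ := mem_words.1 h7
      exact hcon w h9 (by omega)
    have e7 := (sum_eq_zero_iff_of_nonpos e6).1 e4
    exact e7 u (mem_filter.2 ⟨mem_words.2 ⟨hk, hu⟩, huM, hu0⟩)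
  -- a long enough extension of `w`
  set i := m * ((n - N) / m) with hi
  have hi1 : i ≤ n - N := Nat.mul_div_le _ _
  have hi2 : n - N < i + m := by
    have := Nat.lt_mul_div_succ (n - N) hm0
    rw [Nat.mul_add, mul_one] at this
    exact this
  have hw2 : sgg C g (w ++ List.replicate i b) = 0 := by
    refine hzero _ (h1.append (Over.replicate hb i)) ?_ ?_ ?_ ?_
    · rw [nb_append, nb_replicate, h2]; omega
    · cases w with
      | nil => exact absurd rfl h6'
      | cons a u => simpa using h6
    · rw [List.length_append, List.length_replicate, h3]; omega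
    · rw [List.length_append, List.length_replicate, h3]; omega
  have hper2 : ∀ k x, g (b^[m * k] x) = g x := by
    intro k
    induction k with
    | zero => intro x; simp
    | succ k ih =>
      intro x
      rw [Nat.mul_add, mul_one, Function.iterate_add_apply, ih, hper]
  have hw3 : sgg C g (w ++ List.replicate i b) = sgg C g w := by
    unfold sgg
    refine sum_congr rfl fun x _ => ?_
    rw [act_append, act_replicate, hi, hper2]
  rw [hw3] at hw2
  exact h4 hw2

end ext

end OneCl
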