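import Pool.Agent.OneCl.Main

/-!
# One-cluster automata: the first merging on the cycle is cheap
-/

open Finset Polynomial

namespace OneCl

open Helper41.Circ (act act_nil act_cons act_append act_replicate pre mem_pre pre_append Over Sync)

variable {n : ℕ}

section
variable {Ω : Finset (Fin n → Fin n)} {C : Finset (Fin n)} {β : Fin n → Fin n}

/-- the number of states of `C` that are sent to `p` by `w` and then `β` -/
def cnt (C : Finset (Fin n)) (β : Fin n → Fin n) (w : List (Fin n → Fin n)) (p : Fin n) : ℕ :=
  (C.filter fun x => β (act w x) = p).card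

theorem first_rank (hβC : ∀ x, β x ∈ C) (hinj : ∀ x ∈ C, ∀ y ∈ C, β x = β y → x = y)
    {c0 : Fin n} (hc0 : c0 ∈ C) {N : ℕ}
    (hN : ∀ w, Over Ω w → w.length < N → ∀ p ∈ C, cnt C β w p = 1)
    {w : List (Fin n → Fin n)} (hw : Over Ω w) (hwN : w.length = N) {p0 : Fin n} (hp0 : p0 ∈ C)
    (hne : cnt C β w p0 ≠ 1) : N ≤ n - C.card + 1 := by
  classical
  have himg : C.image β = C := by
    refine eq_of_subset_of_card_le ?_ ?_
    · intro y hy
      obtain ⟨x, _, rfl⟩ := mem_image.1 hy
      exact hβC x
    · rw [card_image_of_injOn (fun x hx y hy h => hinj x hx y hy h)]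
  let g : Fin n → ℚ := fun y => (if β y = p0 then (1 : ℚ) else 0) - 1 / (C.card : ℚ)
  have hC0 : (C.card : ℚ) ≠ 0 := by
    have : 0 < C.card := card_pos.2 ⟨c0, hc0⟩
    exact_mod_cast this.ne'
  have hsg : ∀ u, sgg C g u = (cnt C β u p0 : ℚ) - 1 := by
    intro u
    unfold sgg cnt
    simp only [g, sum_sub_distrib, sum_const, nsmul_eq_mul]
    rw [← sum_filter, sum_const, nsmul_eq_mul, mul_one, mul_one_div, div_self hC0]
  let K : Matrix (Fin N) (Fin n) ℚ := fun i y =>
    ((C.filter fun x => act (w.take i) x = y).card : ℚ)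
  let V : Matrix (Fin n) (Fin N) ℚ := fun y k => g (act (w.drop k) y)
  have hKV : ∀ i k : Fin N, (K * V) i k = sgg C g (w.take i ++ w.drop k) := by
    intro i k
    rw [Matrix.mul_apply]
    unfold sgg
    simp only [K, V, act_append]
    have h1 : ∀ y : Fin n, ((C.filter fun x => act (w.take i) x = y).card : ℚ) *
        g (act (w.drop k) y) =
        ∑ x ∈ C, if act (w.take i) x = y then g (act (w.drop k) (act (w.take i) x)) else 0 := by
      intro y
      rw [← sum_filter, card_eq_sum_ones, Nat.cast_sum, sum_mul]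
      refine sum_congr rfl fun x hx => ?_
      rw [(mem_filter.1 hx).2]
      simp
    rw [sum_congr rfl fun y _ => h1 y, sum_comm]
    refine sum_congr rfl fun x _ => ?_
    rw [sum_ite_eq]
    simp
  have hov : ∀ i k : ℕ, Over Ω (w.take i ++ w.drop k) := by
    intro i k f hf
    rcases List.mem_append.1 hf with h | h
    · exact hw f (List.mem_of_mem_take h)
    · exact hw f (List.mem_of_mem_drop h)
  have htri : ∀ i k : Fin N, i < k → (K * V) i k = 0 := by
    intro i k hik
    have hik' : (i : ℕ) < k := hik
    have hk := k.2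
    rw [hKV, hsg, hN _ (hov _ _) _ p0 hp0]
    · simp
    · rw [List.length_append, List.length_take, List.length_drop, hwN]
      omega
  have hdiag : ∀ i : Fin N, (K * V) i i ≠ 0 := by
    intro i
    rw [hKV, List.take_append_drop, hsg, sub_ne_zero]
    exact_mod_cast hne
  have hdet : (K * V).det ≠ 0 := by
    rw [Matrix.det_of_isLowerTriangular (K * V) (fun i j hij => htri i j hij)]
    exact prod_ne_zero_iff.2 fun i _ => hdiag i
  have hrank : (K * V).rank = N := by
    rw [Matrix.rank_of_isUnit _ ((Matrix.isUnit_iff_isUnit_det _).2 (isUnit_iff_ne_zero.2 hdet)),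
      Fintype.card_fin]
  have h1 : (K * V).rank ≤ K.rank := Matrix.rank_mul_le_left K V
  -- the row sums over the fibres of `β`
  have hfib : ∀ (i : Fin N) (p : Fin n), p ∈ C → ∑ z ∈ univ.filter (fun z => β z = p), K i z = 1 := by
    intro i p hp
    have h2 := hN (w.take i) (fun f hf => hw f (List.mem_of_mem_take hf)) (by
      rw [List.length_take]; have := i.2; omega) p hp
    have h3 : cnt C β (w.take i) p =
        ∑ z ∈ univ.filter (fun z => β z = p), (C.filter fun x => act (w.take i) x = z).card := by
      unfold cnt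
      rw [card_eq_sum_card_fiberwise (f := fun x => act (w.take i) x)
        (t := univ.filter fun z => β z = p)]
      · refine sum_congr rfl fun z hz => ?_
        congr 1
        ext x
        simp only [mem_filter]
        constructor
        · rintro ⟨⟨h4, _⟩, h5⟩
          exact ⟨h4, h5⟩
        · rintro ⟨h4, h5⟩
          refine ⟨⟨h4, ?_⟩, h5⟩
          rw [h5]
          exact (mem_filter.1 hz).2
      · intro x hx
        have hx' := mem_filter.1 (mem_coe.1 hx)
        exact mem_coe.2 (mem_filter.2 ⟨mem_univ _, hx'.2⟩)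
    rw [h2] at h3
    simp only [K]
    rw [← Nat.cast_sum, ← h3, Nat.cast_one]
  let D : Finset (Fin n) := univ.filter fun y => y ∉ C ∨ y = c0
  have hDcard : D.card = n - C.card + 1 := by
    have h2 : D = insert c0 (univ \ C) := by
      ext y
      simp only [D, mem_filter, mem_univ, true_and, mem_insert, mem_sdiff]
      tauto
    rw [h2, card_insert_of_notMem (by simp [hc0]), card_sdiff_of_subset (subset_univ _), card_univ,
      Fintype.card_fin]
  let P : Matrix D (Fin n) ℚ := fun d y =>
    if y ∈ D then (if (d : Fin n) = y then 1 else 0) else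
      (if β d = β c0 then 1 else 0) - (if β d = β y then 1 else 0)
  have hKP : K = K.submatrix id (Subtype.val : D → Fin n) * P := by
    ext i y
    rw [Matrix.mul_apply]
    simp only [Matrix.submatrix_apply, id, P]
    by_cases hy : y ∈ D
    · simp only [if_pos hy]
      rw [sum_eq_single (⟨y, hy⟩ : D)]
      · simp
      · intro d _ hd
        have : (d : Fin n) ≠ y := fun h => hd (Subtype.ext h)
        simp [this]
      · intro h
        exact absurd (mem_univ _) h
    · simp only [if_neg hy]
      have hyC : y ∈ C ∧ y ≠ c0 := by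
        simp only [D, mem_filter, mem_univ, true_and, not_or, not_not] at hy
        exact hy
      have e0 : ∀ q : Fin n, ∑ d : D, K i d * (if β d = q then (1 : ℚ) else 0) =
          ∑ z ∈ univ.filter (fun z => β z = q ∧ z ∈ D), K i z := by
        intro q
        rw [sum_coe_sort D (fun z => K i z * (if β z = q then (1 : ℚ) else 0))]
        simp only [mul_ite, mul_one, mul_zero]
        rw [← sum_filter]
        refine sum_congr ?_ fun _ _ => rfl
        ext z
        simp only [mem_filter, mem_univ, true_and]
        tauto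
      simp only [mul_sub]
      rw [sum_sub_distrib, e0, e0]
      have e1 : (univ.filter fun z => β z = β c0 ∧ z ∈ D) = univ.filter fun z => β z = β c0 := by
        ext z
        simp only [mem_filter, mem_univ, true_and, and_iff_left_iff_imp]
        intro hz
        by_cases hzC : z ∈ C
        · have := hinj z hzC c0 hc0 hz
          simp [D, this]
        · simp [D, hzC]
      have e2 : (univ.filter fun z => β z = β y) =
          insert y (univ.filter fun z => β z = β y ∧ z ∈ D) := by
        ext z
        simp only [mem_filter, mem_univ, true_and, mem_insert]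
        constructor
        · intro hz
          by_cases hzC : z ∈ C
          · exact Or.inl (hinj z hzC y hyC.1 hz)
          · exact Or.inr ⟨hz, by simp [D, hzC]⟩
        · rintro (rfl | hz)
          · rfl
          · exact hz.1
      have e3 := hfib i (β y) (hβC y)
      rw [e2, sum_insert (by simp [hy])] at e3
      rw [e1, hfib i (β c0) (hβC c0)]
      linarith
  have h4 : K.rank ≤ n - C.card + 1 := by
    rw [hKP]
    refine (Matrix.rank_mul_le_left _ _).trans ?_
    refine (Matrix.rank_le_card_width _).trans ?_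
    rw [Fintype.card_coe, hDcard]
  omega

/-- the first merging on `C` -/
theorem first_merge (hβC : ∀ x, β x ∈ C) (hinj : ∀ x ∈ C, ∀ y ∈ C, β x = β y → x = y)
    (hC2 : 2 ≤ C.card) {r : List (Fin n → Fin n)} (hr : Over Ω r) {q : Fin n}
    (hrq : ∀ x, act r x = q) :
    ∃ w, Over Ω w ∧ w.length ≤ n - C.card + 1 ∧ ∃ p ∈ C, 2 ≤ cnt C β w p := by
  classical
  obtain ⟨c0, hc0⟩ := card_pos.1 (by omega : 0 < C.card)
  have hex : ∃ N, ∃ w, Over Ω w ∧ w.length = N ∧ ∃ p ∈ C, cnt C β w p ≠ 1 := by
    refine ⟨_, r, hr, rfl, β q, hβC q, ?_⟩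
    have : cnt C β r (β q) = C.card := by
      unfold cnt
      rw [filter_true_of_mem (fun x _ => by rw [hrq])]
    omega
  obtain ⟨N, hNspec, hNmin⟩ : ∃ N, (∃ w, Over Ω w ∧ w.length = N ∧ ∃ p ∈ C, cnt C β w p ≠ 1) ∧
      ∀ N' < N, ¬ ∃ w, Over Ω w ∧ w.length = N' ∧ ∃ p ∈ C, cnt C β w p ≠ 1 :=
    ⟨Nat.find hex, Nat.find_spec hex, fun M' h => Nat.find_min hex h⟩
  obtain ⟨w, hw, hwN, p, hp, hne⟩ := hNspec
  have hN : ∀ w, Over Ω w → w.length < N → ∀ p ∈ C, cnt C β w p = 1 := by
    intro u hu hlt p' hp'
    by_contra hcon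
    exact hNmin _ hlt ⟨u, hu, rfl, p', hp', hcon⟩
  have hle := first_rank hβC hinj hc0 hN hw hwN hp hne
  refine ⟨w, hw, by omega, ?_⟩
  by_contra hcon
  push Not at hcon
  have hsum : ∑ p' ∈ C, cnt C β w p' = C.card := by
    unfold cnt
    rw [← card_eq_sum_card_fiberwise]
    intro x _
    exact mem_coe.2 (hβC _)
  have hlt : ∑ p' ∈ C, cnt C β w p' < ∑ p' ∈ C, 1 := by
    refine sum_lt_sum (fun p' hp' => by have := hcon p' hp'; omega) ⟨p, hp, ?_⟩
    have := hcon p hp
    omega
  rw [hsum, sum_const, smul_eq_mul, mul_one] at hlt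
  omega

end

section
variable {b : Fin n → Fin n} (hb1 : ∀ x y : Fin n, ∃ i j : ℕ, b^[i] x = b^[j] y)

theorem iter_inj_cyc (k : ℕ) : ∀ x ∈ cyc b, ∀ y ∈ cyc b, b^[k] x = b^[k] y → x = y := by
  induction k with
  | zero => intro x _ y _ h; exact h
  | succ k ih =>
    intro x hx y hy h'
    rw [Function.iterate_succ_apply, Function.iterate_succ_apply] at h'
    exact cyc_inj hx hy (ih _ (cyc_stay hx) _ (cyc_stay hy) h')

include hb1 in
/-- words with large fibres on the cycle, improved -/
theorem fibres2 {Ω : Finset (Fin n → Fin n)} (hb : b ∈ Ω) {h : ℕ} (hh : ∀ x, b^[h] x ∈ cyc b)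
    {r : List (Fin n → Fin n)} (hr : Over Ω r)
    {q : Fin n} (hrq : ∀ x, act r x = q) (s : ℕ) (hsm : s + 1 < (cyc b).card) :
    ∃ v, Over Ω v ∧ v.length ≤ s * (n + h) + (n - (cyc b).card + 1 + h) ∧ ∃ p, s + 2 ≤
      ((cyc b).filter fun x => act v x = p).card := by
  classical
  induction s with
  | zero =>
    obtain ⟨w, hw, hlen, p, hp, hcnt⟩ := first_merge (Ω := Ω) (C := cyc b) (β := b^[h]) hh
      (iter_inj_cyc h) (by omega) hr hrq
    refine ⟨w ++ List.replicate h b, hw.append (Over.replicate hb h), ?_, p, ?_⟩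
    · rw [List.length_append, List.length_replicate]; omega
    · unfold cnt at hcnt
      simp only [act_append, act_replicate]
      exact hcnt
  | succ s ih =>
    obtain ⟨v, hv, hlen, p, hp⟩ := ih (by omega)
    set S := (cyc b).filter fun x => act v x = p with hS
    rcases Nat.lt_or_ge (s + 2) S.card with h' | h'
    · refine ⟨v, hv, hlen.trans ?_, p, h'⟩
      have : s * (n + h) ≤ (s + 1) * (n + h) := Nat.mul_le_mul_right _ (by omega)
      omega
    · obtain ⟨u, hu, hulen, hu2⟩ := extend hb1 hb hh hr hrq (S := S) (filter_subset _ _)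
        (by omega) (by omega)
      refine ⟨u ++ v, hu.append hv, ?_, p, ?_⟩
      · rw [List.length_append, Nat.add_mul, one_mul]
        omega
      · have h3 : ((cyc b).filter fun x => act u x ∈ S) ⊆
            (cyc b).filter fun x => act (u ++ v) x = p := by
          intro x hx
          obtain ⟨hx1, hx2⟩ := mem_filter.1 hx
          rw [mem_filter, act_append]
          exact ⟨hx1, (mem_filter.1 hx2).2⟩
        have h4 := card_le_card h3
        omega

include hb1 in
/-- main theorem, improved -/
theorem main2 {Ω : Finset (Fin n → Fin n)} (hb : b ∈ Ω) {h : ℕ} (hh : ∀ x, b^[h] x ∈ cyc b)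
    {r : List (Fin n → Fin n)} (hr : Over Ω r)
    {q : Fin n} (hrq : ∀ x, act r x = q) (T : Finset (Fin n)) (j : ℕ) (hj : j < T.card) :
    ∃ w, Over Ω w ∧ w.length ≤ (j * (cyc b).card / T.card) * (n + h) + h ∧
      ∃ p, j + 1 ≤ (T.filter fun x => act w x = p).card := by
  classical
  have hT0 : 0 < T.card := by omega
  have hm0 : 0 < (cyc b).card := card_pos.2 ⟨_, hh q⟩
  have hmn := cyc_card_le b
  set m := (cyc b).card with hm
  set d := j * m / T.card with hd
  have hdm : d < m := by
    rw [hd, Nat.div_lt_iff_lt_mul hT0, mul_comm m]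
    exact Nat.mul_lt_mul_of_pos_right hj hm0
  have hmul : j * m < T.card * (d + 1) := by
    rw [hd, mul_comm T.card]
    exact Nat.lt_mul_of_div_lt (Nat.lt_succ_self _) hT0
  rcases Nat.eq_zero_or_pos d with hd0 | hd0
  · -- pigeonhole
    rw [hd0] at hmul
    obtain ⟨p, _, hp⟩ := exists_lt_card_fiber_of_mul_lt_card_of_maps_to (s := T) (t := cyc b)
      (f := b^[h]) (n := j) (fun x _ => hh x) (by rw [← hm, mul_comm]; omega)
    refine ⟨List.replicate h b, Over.replicate hb h, ?_, p, ?_⟩
    · rw [List.length_replicate]; omega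
    · simp only [act_replicate]
      exact hp
  · obtain ⟨s, hs⟩ : ∃ s, d = s + 1 := ⟨d - 1, by omega⟩
    obtain ⟨v, hv, hlen, p, hp⟩ := fibres2 hb1 hb hh hr hrq s (by omega)
    set S := (cyc b).filter fun x => act v x = p with hS
    have h1 : j * m < T.card * S.card := by
      calc j * m < T.card * (d + 1) := hmul
        _ ≤ T.card * S.card := Nat.mul_le_mul_left _ (by omega)
    have h2 : ∃ i < m, j + 1 ≤ (T.filter fun x => b^[i] (b^[h] x) ∈ S).card := by
      by_contra hcon
      push Not at hcon
      have e1 : ∑ i ∈ range m, (T.filter fun x => b^[i] (b^[h] x) ∈ S).card = T.card * S.card := by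
        simp_rw [card_filter]
        rw [sum_comm]
        rw [← smul_eq_mul, ← sum_const]
        refine sum_congr rfl fun x _ => ?_
        rw [← card_filter, (card_rot hb1 (hh x) S).2, inter_eq_left.2 (filter_subset _ _)]
      have e2 : ∑ i ∈ range m, (T.filter fun x => b^[i] (b^[h] x) ∈ S).card ≤ ∑ i ∈ range m, j :=
        sum_le_sum fun i hi => by have := hcon i (mem_range.1 hi); omega
      rw [e1, sum_const, card_range, smul_eq_mul] at e2
      rw [mul_comm m j] at e2
      omega
    obtain ⟨i, hi, h3⟩ := h2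
    refine ⟨List.replicate (h + i) b ++ v, (Over.replicate hb _).append hv, ?_, p, ?_⟩
    · rw [List.length_append, List.length_replicate, hs, Nat.add_mul, one_mul]
      omega
    · refine h3.trans (card_le_card ?_)
      intro x hx
      obtain ⟨hx1, hx2⟩ := mem_filter.1 hx
      rw [mem_filter, act_append, act_replicate, add_comm h i, Function.iterate_add_apply]
      exact ⟨hx1, (mem_filter.1 hx2).2⟩

include hb1 in
/-- reset words -/
theorem reset {Ω : Finset (Fin n → Fin n)} (hb : b ∈ Ω) {h : ℕ} (hh : ∀ x, b^[h] x ∈ cyc b)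
    {r : List (Fin n → Fin n)} (hr : Over Ω r)
    {q : Fin n} (hrq : ∀ x, act r x = q) :
    ∃ w, Over Ω w ∧ w.length + ((cyc b).card - 1) ≤ ((cyc b).card - 1) * (n + h) + h ∧
      ∃ p, ∀ x, act w x = p := by
  classical
  have hm0 : 0 < (cyc b).card := card_pos.2 ⟨_, hh q⟩
  have hmn := cyc_card_le b
  set m := (cyc b).card with hm
  rcases Nat.lt_or_ge 1 m with hm1 | hm1
  · obtain ⟨s, hs⟩ : ∃ s, m = s + 2 := ⟨m - 2, by omega⟩
    obtain ⟨v, hv, hlen, p, hp⟩ := fibres2 hb1 hb hh hr hrq s (by omega)
    refine ⟨List.replicate h b ++ v, (Over.replicate hb _).append hv, ?_, p, ?_⟩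
    · rw [List.length_append, List.length_replicate]
      have e1 : m - 1 = s + 1 := by omega
      rw [e1, Nat.add_mul, one_mul]
      omega
    · intro x
      have h1 : (cyc b).filter (fun x => act v x = p) = cyc b := by
        refine eq_of_subset_of_card_le (filter_subset _ _) ?_
        omega
      have h2 := hh x
      rw [← h1] at h2
      rw [act_append, act_replicate]
      exact (mem_filter.1 h2).2
  · obtain ⟨c, hc⟩ := card_eq_one.1 (by omega : (cyc b).card = 1)
    refine ⟨List.replicate h b, Over.replicate hb _, ?_, c, ?_⟩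
    · rw [List.length_replicate]
      have e1 : m - 1 = 0 := by omega
      rw [e1]
      omega
    · intro x
      have h2 := hh x
      rw [hc, mem_singleton] at h2
      rw [act_replicate, h2]

end

end OneCl
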