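import Pool.Agent.OneCl.Ext

/-!
# One-cluster automata: synchronization of `k`-sets
-/

open Finset Polynomial

namespace OneCl

open Helper41.Circ (act act_nil act_cons act_append act_replicate pre mem_pre pre_append Over Sync)

variable {n : ℕ}

/-- the states on the cycle(s) of `b` -/
noncomputable def cyc (b : Fin n → Fin n) : Finset (Fin n) :=
  (Set.toFinite {x : Fin n | ∃ i : ℕ, i > 0 ∧ b^[i] x = x}).toFinset

theorem mem_cyc {b : Fin n → Fin n} {x : Fin n} : x ∈ cyc b ↔ ∃ i : ℕ, i > 0 ∧ b^[i] x = x := by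
  unfold cyc
  rw [Set.Finite.mem_toFinset]
  exact Iff.rfl

section
variable {b : Fin n → Fin n} (hb1 : ∀ x y : Fin n, ∃ i j : ℕ, b^[i] x = b^[j] y)

theorem cyc_stay {x : Fin n} (hx : x ∈ cyc b) : b x ∈ cyc b := by
  rw [mem_cyc] at hx ⊢
  obtain ⟨i, hi, h⟩ := hx
  refine ⟨i, hi, ?_⟩
  rw [← Function.iterate_succ_apply, Function.iterate_succ_apply', h]

theorem cyc_inj {x y : Fin n} (hx : x ∈ cyc b) (hy : y ∈ cyc b) (h : b x = b y) : x = y := by
  rw [mem_cyc] at hx hy
  obtain ⟨i, hi, hx⟩ := hx
  obtain ⟨j, hj, hy⟩ := hy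
  have h1 : ∀ k, b^[i * k] x = x := by
    intro k
    induction k with
    | zero => rfl
    | succ k ih => rw [Nat.mul_add, mul_one, Function.iterate_add_apply, hx, ih]
  have h2 : ∀ k, b^[j * k] y = y := by
    intro k
    induction k with
    | zero => rfl
    | succ k ih => rw [Nat.mul_add, mul_one, Function.iterate_add_apply, hy, ih]
  have h3 : 0 < i * j := Nat.mul_pos hi hj
  have h4 : b^[i * j] x = b^[i * j] y := by
    obtain ⟨k, hk⟩ : ∃ k, i * j = k + 1 := ⟨i * j - 1, by omega⟩
    rw [hk, Function.iterate_succ_apply, Function.iterate_succ_apply, h]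
  rw [h1, mul_comm, h2] at h4
  exact h4

include hb1 in
theorem cyc_trans {x y : Fin n} (hx : x ∈ cyc b) (hy : y ∈ cyc b) : ∃ i, b^[i] x = y := by
  obtain ⟨i, j, h⟩ := hb1 x y
  obtain ⟨k, hk, hy'⟩ := mem_cyc.1 hy
  have h2 : ∀ l, b^[k * l] y = y := by
    intro l
    induction l with
    | zero => rfl
    | succ l ih => rw [Nat.mul_add, mul_one, Function.iterate_add_apply, hy', ih]
  refine ⟨(k * j - j) + i, ?_⟩
  have h3 : j ≤ k * j := Nat.le_mul_of_pos_left j hk
  rw [Function.iterate_add_apply, h, ← Function.iterate_add_apply, Nat.sub_add_cancel h3, h2]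

theorem cyc_closed (x : Fin n) (hx : x ∈ cyc b) (i : ℕ) : b^[i] x ∈ cyc b := by
  induction i with
  | zero => exact hx
  | succ i ih => rw [Function.iterate_succ_apply']; exact cyc_stay ih

/-- after `n - m` steps every state is on the cycle -/
theorem cyc_enter (x : Fin n) : b^[n - (cyc b).card] x ∈ cyc b := by
  classical
  have hex : ∃ i, b^[i] x ∈ cyc b := by
    obtain ⟨i, j, hne, h⟩ := Finite.exists_ne_map_eq_of_infinite (fun i : ℕ => b^[i] x)
    have key : ∀ i j : ℕ, i < j → b^[i] x = b^[j] x → ∃ i, b^[i] x ∈ cyc b := by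
      intro i j hij h
      refine ⟨i, mem_cyc.2 ⟨j - i, by omega, ?_⟩⟩
      rw [← Function.iterate_add_apply, Nat.sub_add_cancel hij.le, ← h]
    rcases lt_or_gt_of_ne hne with h1 | h1
    · exact key i j h1 h
    · exact key j i h1 h.symm
  have hspec := Nat.find_spec hex
  set i := Nat.find hex with hi
  have hmin : ∀ k < i, b^[k] x ∉ cyc b := fun k hk => Nat.find_min hex hk
  have hinj : Set.InjOn (fun k => b^[k] x) (range i : Set ℕ) := by
    have key : ∀ s t, s < t → t < i → b^[s] x ≠ b^[t] x := by
      intro s t hst hti h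
      have h4 : b^[i - t + s] x ∈ cyc b := by
        rw [Function.iterate_add_apply, h, ← Function.iterate_add_apply]
        have : i - t + t = i := by omega
        rw [this]; exact hspec
      exact hmin _ (by omega) h4
    intro s hs t ht h
    have hs' : s < i := by simpa using hs
    have ht' : t < i := by simpa using ht
    rcases lt_trichotomy s t with h5 | h5 | h5
    · exact absurd h (key s t h5 ht')
    · exact h5
    · exact absurd h.symm (key t s h5 hs')
  have hcard : ((range i).image fun k => b^[k] x).card = i := by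
    rw [card_image_of_injOn hinj, card_range]
  have hsub : ((range i).image fun k => b^[k] x) ⊆ univ \ cyc b := by
    intro y hy
    obtain ⟨k, hk, rfl⟩ := mem_image.1 hy
    rw [mem_sdiff]
    exact ⟨mem_univ _, hmin k (mem_range.1 hk)⟩
  have hle := card_le_card hsub
  rw [hcard, card_sdiff_of_subset (subset_univ _), card_univ, Fintype.card_fin] at hle
  have h6 : n - (cyc b).card = (n - (cyc b).card - i) + i := by omega
  rw [h6, Function.iterate_add_apply]
  exact cyc_closed _ hspec _

theorem cyc_card_le (b : Fin n → Fin n) : (cyc b).card ≤ n := by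
  have := card_le_univ (cyc b)
  rwa [Fintype.card_fin] at this

include hb1 in
/-- the number of rotations of a cyclic state in `S` -/
theorem card_rot {x : Fin n} (hx : x ∈ cyc b) (S : Finset (Fin n)) :
    b^[(cyc b).card] x = x ∧
    ((range (cyc b).card).filter fun i => b^[i] x ∈ S).card = (S ∩ cyc b).card := by
  classical
  set f := res (p := fun x => x ∈ cyc b) (b := b) (fun x hx => cyc_stay hx) with hf
  have hcyc : ∀ x y : {x // x ∈ cyc b}, ∃ i : ℕ, f^[i] x = y :=
    res_cyc (b := b) (fun x hx => cyc_stay hx) (fun x hx y hy => cyc_trans hb1 hx hy)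
  have hcard : Fintype.card {x // x ∈ cyc b} = (cyc b).card := Fintype.card_coe _
  have hit : ∀ i, (f^[i] ⟨x, hx⟩).1 = b^[i] x := fun i => res_iter _ _ i
  constructor
  · have h := iter_card hcyc ⟨x, hx⟩
    rw [hcard] at h
    rw [← hit, h]
  · refine card_bij (fun i _ => b^[i] x) ?_ ?_ ?_
    · intro i hi
      exact mem_inter.2 ⟨(mem_filter.1 hi).2, cyc_closed x hx i⟩
    · intro i hi j hj h
      refine iter_inj hcyc ⟨x, hx⟩ ?_ ?_ (Subtype.ext ?_)
      · rw [hcard]; exact mem_range.1 (mem_filter.1 hi).1
      · rw [hcard]; exact mem_range.1 (mem_filter.1 hj).1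
      · rw [hit, hit]; exact h
    · intro y hy
      obtain ⟨hyS, hyC⟩ := mem_inter.1 hy
      obtain ⟨i, hi⟩ := cyc_trans hb1 hx hyC
      have hm : 0 < (cyc b).card := card_pos.2 ⟨x, hx⟩
      have hper : b^[(cyc b).card] x = x := by
        have h := iter_card hcyc ⟨x, hx⟩
        rw [hcard] at h
        rw [← hit, h]
      have h2 : ∀ k, b^[(cyc b).card * k] x = x := by
        intro k
        induction k with
        | zero => rfl
        | succ k ih => rw [Nat.mul_add, mul_one, Function.iterate_add_apply, hper, ih]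
      have h3 : b^[i % (cyc b).card] x = y := by
        rw [← hi]
        conv_rhs => rw [← Nat.mod_add_div i (cyc b).card, Function.iterate_add_apply, h2]
      exact ⟨i % (cyc b).card, mem_filter.2 ⟨mem_range.2 (Nat.mod_lt _ hm), by rw [h3]; exact hyS⟩, h3⟩

include hb1 in
/-- **Extension lemma** for one-cluster automata -/
theorem extend {Ω : Finset (Fin n → Fin n)} (hb : b ∈ Ω) {h : ℕ} (hh : ∀ x, b^[h] x ∈ cyc b)
    {r : List (Fin n → Fin n)} (hr : Over Ω r)
    {q : Fin n} (hrq : ∀ x, act r x = q) {S : Finset (Fin n)} (hSC : S ⊆ cyc b)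
    (hS0 : 0 < S.card) (hSn : S.card < (cyc b).card) :
    ∃ w, Over Ω w ∧ w.length ≤ n + h ∧ S.card < ((cyc b).filter fun x => act w x ∈ S).card := by
  classical
  set m := (cyc b).card with hm
  have hm0 : 0 < m := by omega
  have hm0' : (0 : ℚ) < m := by exact_mod_cast hm0
  have hmn : m ≤ n := cyc_card_le b
  set g : Fin n → ℚ := fun x => (if b^[h] x ∈ S then (m : ℚ) else 0) - S.card with hg
  have hsg : ∀ w, sgg (cyc b) g w =
      m * ((((cyc b).filter fun x => b^[h] (act w x) ∈ S).card : ℚ) - S.card) := by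
    intro w
    unfold sgg
    rw [hg]
    simp only [sum_sub_distrib, sum_const, nsmul_eq_mul]
    rw [← sum_filter, sum_const, nsmul_eq_mul, ← hm]
    ring
  have hne : ∃ x, x ∈ cyc b := card_pos.1 (by omega)
  have hchar : (Bm b).charpoly = X ^ n - X ^ (n - m) := by
    have h1 := charpoly_one' (p := fun x => x ∈ cyc b) (b := b) (fun x hx => cyc_stay hx)
      (fun x hx y hy => cyc_trans hb1 hx hy) hne hh
    have h2 : (univ.filter fun x => x ∈ cyc b) = cyc b := by ext x; simp
    rw [h2, Fintype.card_fin] at h1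
    exact h1
  have hper : ∀ x, g (b^[m] x) = g x := by
    intro x
    rw [hg]
    simp only
    rw [← Function.iterate_add_apply, add_comm, Function.iterate_add_apply,
      (card_rot hb1 (hh x) S).1]
  have hbij : ∀ k, ((cyc b).filter fun x => b^[k] x ∈ S).card = S.card := by
    intro k
    have hinjk : ∀ x ∈ cyc b, ∀ y ∈ cyc b, b^[k] x = b^[k] y → x = y := by
      induction k with
      | zero => intro x _ y _ h; exact h
      | succ k ih =>
        intro x hx y hy h'
        rw [Function.iterate_succ_apply, Function.iterate_succ_apply] at h'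
        exact cyc_inj hx hy (ih _ (cyc_stay hx) _ (cyc_stay hy) h')
    have himg : (cyc b).image (b^[k]) = cyc b := by
      refine eq_of_subset_of_card_le ?_ ?_
      · intro y hy
        obtain ⟨x, hx, rfl⟩ := mem_image.1 hy
        exact cyc_closed x hx k
      · rw [card_image_of_injOn (fun x hx y hy h => hinjk x hx y hy h)]
    refine card_bij (fun x _ => b^[k] x) ?_ ?_ ?_
    · intro x hx
      exact (mem_filter.1 hx).2
    · intro x hx y hy h'
      exact hinjk x (mem_filter.1 hx).1 y (mem_filter.1 hy).1 h'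
    · intro y hy
      have h1 := hSC hy
      rw [← himg] at h1
      obtain ⟨x, hx, rfl⟩ := mem_image.1 h1
      exact ⟨x, mem_filter.2 ⟨hx, hy⟩, rfl⟩
  have hnil : sgg (cyc b) g [] = 0 := by
    rw [hsg]
    simp only [act_nil]
    rw [hbij h, sub_self, mul_zero]
  have hrn : sgg (cyc b) g r ≠ 0 := by
    rw [hsg]
    refine mul_ne_zero hm0'.ne' ?_
    rw [sub_ne_zero]
    intro h'
    have h'' : ((cyc b).filter fun x => b^[h] (act r x) ∈ S).card = S.card := by exact_mod_cast h'
    simp only [hrq] at h''
    by_cases hq : b^[h] q ∈ S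
    · rw [filter_true_of_mem (fun x _ => hq)] at h''
      omega
    · rw [filter_false_of_mem (fun x _ => hq), card_empty] at h''
      omega
  obtain ⟨w, hw1, hw2, hw3⟩ := exists_pos hb (fun x hx => cyc_stay hx)
    (fun x hx y hy h => cyc_inj hx hy h) hmn hm0 hchar hper hnil hr hrn
  refine ⟨w ++ List.replicate h b, hw1.append (Over.replicate hb h), ?_, ?_⟩
  · rw [List.length_append, List.length_replicate]; omega
  · rw [hsg] at hw3
    have h8 : (0 : ℚ) < (((cyc b).filter fun x => b^[h] (act w x) ∈ S).card : ℚ) - S.card := by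
      by_contra hcon
      push Not at hcon
      exact absurd hw3 (not_lt.2 (mul_nonpos_of_nonneg_of_nonpos hm0'.le hcon))
    have h9 : (S.card : ℚ) < ((cyc b).filter fun x => b^[h] (act w x) ∈ S).card := by linarith
    simp only [act_append, act_replicate]
    exact_mod_cast h9

include hb1 in
/-- words with large fibres on the cycle -/
theorem fibres {Ω : Finset (Fin n → Fin n)} (hb : b ∈ Ω) {h : ℕ} (hh : ∀ x, b^[h] x ∈ cyc b)
    {r : List (Fin n → Fin n)} (hr : Over Ω r)
    {q : Fin n} (hrq : ∀ x, act r x = q) (s : ℕ) (hsm : s < (cyc b).card) :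
    ∃ v, Over Ω v ∧ v.length ≤ s * (n + h) ∧ ∃ p, s + 1 ≤
      ((cyc b).filter fun x => act v x = p).card := by
  classical
  induction s with
  | zero =>
    obtain ⟨p, hp⟩ := card_pos.1 (by omega : 0 < (cyc b).card)
    refine ⟨[], fun f hf => by simp at hf, by simp, p, ?_⟩
    have : ({p} : Finset (Fin n)) ⊆ (cyc b).filter fun x => act [] x = p := by
      intro y hy
      rw [mem_singleton.1 hy, mem_filter]
      exact ⟨hp, rfl⟩
    have h2 := card_le_card this
    rwa [card_singleton] at h2
  | succ s ih =>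
    obtain ⟨v, hv, hlen, p, hp⟩ := ih (by omega)
    set S := (cyc b).filter fun x => act v x = p with hS
    rcases Nat.lt_or_ge (s + 1) S.card with h' | h'
    · refine ⟨v, hv, hlen.trans ?_, p, h'⟩
      exact Nat.mul_le_mul_right _ (by omega)
    · obtain ⟨u, hu, hulen, hu2⟩ := extend hb1 hb hh hr hrq (S := S) (filter_subset _ _)
        (by omega) (by omega)
      refine ⟨u ++ v, hu.append hv, ?_, p, ?_⟩
      · rw [List.length_append, Nat.add_mul, one_mul]
        omega
      · have h3 : ((cyc b).filter fun x => act u x ∈ S) ⊆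
            (cyc b).filter fun x => act (u ++ v) x = p := by
          intro x hx
          obtain ⟨hx1, hx2⟩ := mem_filter.1 hx
          rw [mem_filter, act_append]
          exact ⟨hx1, (mem_filter.1 hx2).2⟩
        have h4 := card_le_card h3
        omega

include hb1 in
/-- main theorem -/
theorem main {Ω : Finset (Fin n → Fin n)} (hb : b ∈ Ω) {h : ℕ} (hh : ∀ x, b^[h] x ∈ cyc b)
    {r : List (Fin n → Fin n)} (hr : Over Ω r)
    {q : Fin n} (hrq : ∀ x, act r x = q) (T : Finset (Fin n)) (j : ℕ) (hj : j < T.card) :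
    ∃ w, Over Ω w ∧ w.length ≤ (j * (cyc b).card / T.card) * (n + h) + (h + (cyc b).card - 1) ∧
      ∃ p, j + 1 ≤ (T.filter fun x => act w x = p).card := by
  classical
  have hT0 : 0 < T.card := by omega
  have hm0 : 0 < (cyc b).card := card_pos.2 ⟨_, hh q⟩
  set m := (cyc b).card with hm
  set d := j * m / T.card with hd
  have hdm : d < m := by
    rw [hd, Nat.div_lt_iff_lt_mul hT0, mul_comm m]
    exact Nat.mul_lt_mul_of_pos_right hj hm0
  obtain ⟨v, hv, hlen, p, hp⟩ := fibres hb1 hb hh hr hrq d hdm
  set S := (cyc b).filter fun x => act v x = p with hS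
  have h1 : j * m < T.card * S.card := by
    calc j * m < T.card * (d + 1) := by
          rw [hd, mul_comm T.card]
          exact Nat.lt_mul_of_div_lt (Nat.lt_succ_self _) hT0
      _ ≤ T.card * S.card := Nat.mul_le_mul_left _ hp
  have h2 : ∃ i < m, j + 1 ≤ (T.filter fun x => b^[i] (b^[h] x) ∈ S).card := by
    by_contra hcon
    push Not at hcon
    have e1 : ∑ i ∈ range m, (T.filter fun x => b^[i] (b^[h] x) ∈ S).card = T.card * S.card := by
      simp_rw [card_filter]
      rw [sum_comm]
      rw [← smul_eq_mul, ← sum_const]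
      refine sum_congr rfl fun x _ => ?_
      rw [← card_filter, (card_rot hb1 (hh x) S).2, inter_eq_left.2 (filter_subset _ _)]
    have e2 : ∑ i ∈ range m, (T.filter fun x => b^[i] (b^[h] x) ∈ S).card ≤ ∑ i ∈ range m, j :=
      sum_le_sum fun i hi => by have := hcon i (mem_range.1 hi); omega
    rw [e1, sum_const, card_range, smul_eq_mul] at e2
    rw [mul_comm m j] at e2
    omega
  obtain ⟨i, hi, h3⟩ := h2
  refine ⟨List.replicate (h + i) b ++ v, (Over.replicate hb _).append hv, ?_, p, ?_⟩
  · rw [List.length_append, List.length_replicate]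
    omega
  · refine h3.trans (card_le_card ?_)
    intro x hx
    obtain ⟨hx1, hx2⟩ := mem_filter.1 hx
    rw [mem_filter, act_append, act_replicate, add_comm h i, Function.iterate_add_apply]
    exact ⟨hx1, (mem_filter.1 hx2).2⟩

end

end OneCl
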